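import Mathlib
import Pool.Agent.Helper15.Expansion
import Pool.Agent.Helper15.NoExpansion
import Pool.Agent.Helper24.RTG.Total

/-!
# No expansion, by the growth along a subsequence
-/

open Finset Filter Asymptotics
open scoped Real Topology

namespace Pool.Agent.Helper24.RTD

open Pool.Agent.Helper15 Pool.Agent.Helper15.AllN Pool.Agent.Helper15.RT

theorem cast_sub_eq {N : ℕ} (j : ℕ) :
    ((2 * N * (j + 1) - N : ℕ) : ℝ) + N = (2 * N : ℝ) * ((j : ℝ) + (1 : ℕ)) := by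
  have h : N ≤ 2 * N * (j + 1) := by nlinarith
  rw [Nat.cast_sub h]
  push_cast
  ring

theorem hasExpansion_subseq {N : ℕ} (hN : 1 ≤ N) {Z : ℕ → ℂ} {m : ℕ} {c : Fin (m + 1) → ℝ}
    (h : HasExpansion N Z m c) :
    HasExpansion 1 (fun j => Z (2 * N * (j + 1) - N)) m (fun i => 2 * N * c i) := by
  obtain ⟨d, b, a, h⟩ := h
  have hN0 : (0 : ℝ) < 2 * N := by
    have : (0 : ℝ) < N := by exact_mod_cast hN
    positivity
  refine ⟨d, fun i => (((2 * N : ℝ) ^ ((d i : ℝ) / 2) : ℝ) : ℂ) * b i,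
    fun i l => a i l * (((2 * N : ℝ) ^ (-(l : ℝ) / 2) : ℝ) : ℂ), fun L => ?_⟩
  have ht : Tendsto (fun j : ℕ => 2 * N * (j + 1) - N) atTop atTop := by
    refine tendsto_atTop_mono (fun j => ?_) tendsto_id
    simp only [id]
    have : j + N ≤ 2 * N * (j + 1) := by nlinarith
    omega
  have h1 := (h L).comp_tendsto ht
  have h2 : ((fun k : ℕ => ((k : ℝ) + N) ^
      (((univ.sup' univ_nonempty d : ℤ) : ℝ) / 2 - ((L : ℝ) + 1) / 2)) ∘
      fun j : ℕ => 2 * N * (j + 1) - N) = fun j : ℕ =>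
        (2 * N : ℝ) ^ (((univ.sup' univ_nonempty d : ℤ) : ℝ) / 2 - ((L : ℝ) + 1) / 2) *
        ((j : ℝ) + (1 : ℕ)) ^
          (((univ.sup' univ_nonempty d : ℤ) : ℝ) / 2 - ((L : ℝ) + 1) / 2) := by
    funext j
    rw [Function.comp_apply, cast_sub_eq, Real.mul_rpow hN0.le (by positivity)]
  rw [h2] at h1
  have h3 := h1.trans (isBigO_const_mul_self _ _ _)
  refine h3.congr_left fun j => ?_
  simp only [Function.comp_apply]
  congr 1
  refine Finset.sum_congr rfl fun i _ => ?_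
  have hj : (0 : ℝ) ≤ (j : ℝ) + (1 : ℕ) := by positivity
  have e0 : (((2 * N * (j + 1) - N : ℕ) : ℂ) + N) = 2 * N * ((j : ℂ) + (1 : ℕ)) := by
    have := congrArg (fun t : ℝ => (t : ℂ)) (cast_sub_eq (N := N) j)
    push_cast at this ⊢
    exact this
  rw [e0, cast_sub_eq]
  have e1 : ∀ e : ℝ, ((2 * N : ℝ) * ((j : ℝ) + (1 : ℕ))) ^ e =
      (2 * N : ℝ) ^ e * ((j : ℝ) + (1 : ℕ)) ^ e := fun e => Real.mul_rpow hN0.le hj
  simp only [e1]
  have e2 : Complex.exp (2 * π * Complex.I * (2 * N * ((j : ℂ) + (1 : ℕ))) * c i) =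
      Complex.exp (2 * π * Complex.I * ((j : ℂ) + (1 : ℕ)) * ((2 * N * c i : ℝ) : ℂ)) := by
    congr 1
    push_cast
    ring
  rw [e2]
  have e3 : ∀ l : ℕ, a i l * (((2 * N : ℝ) ^ (-(l : ℝ) / 2) *
      ((j : ℝ) + (1 : ℕ)) ^ (-(l : ℝ) / 2) : ℝ) : ℂ) =
      a i l * (((2 * N : ℝ) ^ (-(l : ℝ) / 2) : ℝ) : ℂ) *
        ((((j : ℝ) + (1 : ℕ)) ^ (-(l : ℝ) / 2) : ℝ) : ℂ) := by
    intro l
    push_cast
    ring
  rw [Finset.sum_congr rfl fun l _ => e3 l]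
  push_cast
  ring

theorem no_expansion_subseq {N : ℕ} (hN : 2 ≤ N) {Z : ℕ → ℂ}
    (hZ : ∀ k, ‖Z k‖ = ‖Zred N (k + N)‖) (m : ℕ) (c : Fin (m + 1) → ℝ) :
    ¬ HasExpansion N Z m c := by
  intro h
  have hN0 : (0 : ℝ) < 2 * N := by
    have : (0 : ℝ) < N := by
      have : 0 < N := by omega
      exact_mod_cast this
    positivity
  have hZ' : ∀ j : ℕ, ‖Z (2 * N * (j + 1) - N)‖ = ‖Zred N (2 * N * (j + 1))‖ := by
    intro j
    rw [hZ]
    have : N ≤ 2 * N * (j + 1) := by nlinarith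
    rw [Nat.sub_add_cancel this]
  have hD : ((((N - 1 : ℕ) : ℤ) ^ 2 : ℤ) : ℝ) = ((N - 1 : ℕ) : ℝ) ^ 2 := by push_cast; ring
  have hcast : ∀ j : ℕ, ((2 * N * (j + 1) : ℕ) : ℝ) = (2 * N : ℝ) * ((j : ℝ) + (1 : ℕ)) := by
    intro j
    push_cast
    ring
  refine no_expansion (N := 1) le_rfl (((N - 1 : ℕ) : ℤ) ^ 2) ?_ ?_
    (hasExpansion_subseq (by omega) h)
  · have h1 := (RTG.growth_lower hN).const_mul_atTop
      (Real.rpow_pos_of_pos hN0 (((N - 1 : ℕ) : ℝ) ^ 2 / 2))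
    refine h1.congr fun j => ?_
    rw [hZ' j, hD, hcast j, Real.mul_rpow hN0.le (by positivity)]
    have : (2 * N : ℝ) ^ (((N - 1 : ℕ) : ℝ) ^ 2 / 2) ≠ 0 := (Real.rpow_pos_of_pos hN0 _).ne'
    field_simp
  · have h1 := (RTG.growth_upper hN).const_mul ((2 * N : ℝ) ^ ((((N - 1 : ℕ) : ℝ) ^ 2 + 1) / 2))
    rw [mul_zero] at h1
    refine h1.congr fun j => ?_
    rw [hZ' j, hD, hcast j, Real.mul_rpow hN0.le (by positivity)]
    have : (2 * N : ℝ) ^ ((((N - 1 : ℕ) : ℝ) ^ 2 + 1) / 2) ≠ 0 :=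
      (Real.rpow_pos_of_pos hN0 _).ne'
    field_simp

end Pool.Agent.Helper24.RTD
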